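import Mathlib

/-!
# Congruent numbers: from rational right triangles to the system of two equations
-/

set_option autoImplicit false

namespace Pool.Agent.H575.CPX

/-- a positive rational number over a given multiple of its denominator -/
theorem over_den (a : ℚ) (ha : 0 < a) (k : ℕ) (hk : 0 < k) :
    ∃ A : ℕ, 0 < A ∧ a = (A : ℚ) / ((a.den * k : ℕ) : ℚ) := by
  refine ⟨a.num.natAbs * k, ?_, ?_⟩
  · exact Nat.mul_pos (Int.natAbs_pos.2 (Rat.num_pos.2 ha).ne') hk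
  · have h1 : ((a.num.natAbs : ℕ) : ℚ) = (a.num : ℚ) := by
      have h2 : ((a.num.natAbs : ℕ) : ℤ) = a.num := Int.natAbs_of_nonneg (Rat.num_pos.2 ha).le
      rw [← h2]
      simp
    have hk' : (k : ℚ) ≠ 0 := by exact_mod_cast hk.ne'
    have hd : (a.den : ℚ) ≠ 0 := by exact_mod_cast a.den_ne_zero
    rw [Nat.cast_mul, Nat.cast_mul, h1, mul_div_mul_right _ _ hk']
    exact (Rat.num_div_den a).symm

/-- the area `d` of a right triangle with rational sides: the system is solvable -/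
theorem system_of {d : ℕ} (h : ∃ a b c : ℚ, 0 < a ∧ 0 < b ∧ 0 < c ∧ a ^ 2 + b ^ 2 = c ^ 2 ∧
    (d : ℚ) = a * b / 2) :
    ∃ x y z t : ℕ, 0 < x ∧ 0 < y ∧ 0 < z ∧ 0 < t ∧ x ^ 2 + d * y ^ 2 = z ^ 2 ∧
      x ^ 2 = d * y ^ 2 + t ^ 2 := by
  obtain ⟨a, b, c, ha, hb, hc, habc, hd⟩ := h
  obtain ⟨A, hA0, hA⟩ := over_den a ha (b.den * c.den) (Nat.mul_pos b.den_pos c.den_pos)
  obtain ⟨B, hB0, hB⟩ := over_den b hb (a.den * c.den) (Nat.mul_pos a.den_pos c.den_pos)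
  obtain ⟨C, hC0, hC⟩ := over_den c hc (a.den * b.den) (Nat.mul_pos a.den_pos b.den_pos)
  obtain ⟨m, hm⟩ : ∃ m : ℕ, m = a.den * b.den * c.den := ⟨_, rfl⟩
  have hm0 : 0 < m := by
    rw [hm]; exact Nat.mul_pos (Nat.mul_pos a.den_pos b.den_pos) c.den_pos
  have e1 : a.den * (b.den * c.den) = m := by rw [hm]; ring
  have e2 : b.den * (a.den * c.den) = m := by rw [hm]; ring
  have e3 : c.den * (a.den * b.den) = m := by rw [hm]; ring
  rw [e1] at hA
  rw [e2] at hB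
  rw [e3] at hC
  have hmQ : (m : ℚ) ≠ 0 := by exact_mod_cast hm0.ne'
  have h1 : (A : ℚ) ^ 2 + (B : ℚ) ^ 2 = (C : ℚ) ^ 2 := by
    rw [hA, hB, hC] at habc
    field_simp at habc
    linarith
  have h2 : 2 * (d : ℚ) * (m : ℚ) ^ 2 = A * B := by
    rw [hd, hA, hB]
    field_simp
  have h1' : A ^ 2 + B ^ 2 = C ^ 2 := by exact_mod_cast h1
  have h2' : 2 * d * m ^ 2 = A * B := by exact_mod_cast h2
  have hne : (A : ℤ) - B ≠ 0 := by
    intro h0
    have hAB : A = B := by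
      have : (A : ℤ) = B := by linarith
      exact_mod_cast this
    rw [hAB] at h1'
    have h3 : Irrational (Real.sqrt 2) := irrational_sqrt_two
    apply h3
    refine ⟨(C : ℚ) / B, ?_⟩
    have hBR : (0 : ℝ) < B := by exact_mod_cast hB0
    have hCR : (0 : ℝ) < C := by exact_mod_cast hC0
    have h4 : (2 : ℝ) = ((C : ℝ) / B) ^ 2 := by
      rw [div_pow, eq_div_iff (by positivity)]
      have : ((B ^ 2 + B ^ 2 : ℕ) : ℝ) = ((C ^ 2 : ℕ) : ℝ) := by rw [h1']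
      push_cast at this
      linarith
    rw [h4, Real.sqrt_sq (by positivity)]
    push_cast
    rfl
  refine ⟨C, 2 * m, A + B, ((A : ℤ) - B).natAbs, hC0, by omega, by omega, Int.natAbs_pos.2 hne,
    ?_, ?_⟩
  · have : C ^ 2 + d * (2 * m) ^ 2 = C ^ 2 + 2 * (2 * d * m ^ 2) := by ring
    rw [this, h2', ← h1']
    ring
  · have h5 : (((((A : ℤ) - B).natAbs : ℕ) : ℤ)) ^ 2 = ((A : ℤ) - B) ^ 2 := Int.natAbs_sq _
    have h6 : ((C ^ 2 : ℕ) : ℤ) = ((d * (2 * m) ^ 2 : ℕ) : ℤ) +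
        ((((A : ℤ) - B).natAbs : ℕ) : ℤ) ^ 2 := by
      rw [h5]
      have h7 : d * (2 * m) ^ 2 = 2 * (2 * d * m ^ 2) := by ring
      rw [h7, h2', ← h1']
      push_cast
      ring
    exact_mod_cast h6

end Pool.Agent.H575.CPX
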